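import Pool.Agent.Helper40.IZ.Stmts

/-!
Isometric extensions (MP_7a8f48): row EQC, compactness of the space of the isometries of `M` onto
subsets of the fibres (Arzela and Ascoli).
-/

set_option autoImplicit false

open Set Filter Topology

namespace Pool.Agent.Helper40.IZ

open Pool.Agent.Helper16.AZ (T E Op mm)
open Pool.Agent.Helper40.IZP (IsoExt FibreCts)

theorem st_EQC (hCMP : ST_CMP) : ST_EQC := by
  intro X _ _ r π S τ ρ M _ _ h
  obtain ⟨hcmp1, -⟩ := hCMP X r π S τ ρ h
  obtain ⟨hπ, -, hc, -⟩ := h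
  have hZ : IsClosed {z : X × X | π z.1 = π z.2} :=
    isClosed_eq (hπ.comp continuous_fst) (hπ.comp continuous_snd)
  -- the relation for one pair of points of `M`
  have hcl : ∀ m m' : M, IsClosed {z : X × X | π z.1 = π z.2 ∧ ρ z.1 z.2 = dist m m'} := by
    intro m m'
    have := hc.preimage_isClosed_of_isClosed hZ (isClosed_singleton (x := dist m m'))
    convert this using 1
    ext z
    simp
  let B : Set (M → X) := {f | ∀ m m', π (f m) = π (f m') ∧ ρ (f m) (f m') = dist m m'}
  have hB : IsClosed B := by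
    have : B = ⋂ m, ⋂ m', (fun f : M → X => (f m, f m')) ⁻¹'
        {z : X × X | π z.1 = π z.2 ∧ ρ z.1 z.2 = dist m m'} := by
      ext f
      simp [B]
    rw [this]
    exact isClosed_iInter fun m => isClosed_iInter fun m' =>
      (hcl m m').preimage ((continuous_apply m).prodMk (continuous_apply m'))
  -- all these maps are continuous, uniformly
  have hU : ∀ ε : ℝ, 0 < ε → ∃ δ : ℝ, 0 < δ ∧ ∀ f ∈ B, ∀ m m', dist m m' < δ →
      dist (f m) (f m') < ε := by
    intro ε hε
    obtain ⟨δ, hδ, hd⟩ := hcmp1 ε hε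
    refine ⟨δ, hδ, fun f hf m m' hm => hd _ _ (hf m m').1 ?_⟩
    rw [(hf m m').2]
    exact hm
  have hcont : ∀ f ∈ B, Continuous f := by
    intro f hf
    refine Metric.continuous_iff.2 fun m ε hε => ?_
    obtain ⟨δ, hδ, hd⟩ := hU ε hε
    exact ⟨δ, hδ, fun m' hm => hd f hf m' m hm⟩
  let A : Set C(M, X) := {θ | (θ : M → X) ∈ B}
  have hA : IsCompact A := by
    refine ArzelaAscoli.isCompact_of_equicontinuous A ?_ ?_
    · have : ContinuousMap.toFun '' A = B := by
        ext f
        constructor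
        · rintro ⟨θ, hθ, rfl⟩
          exact hθ
        · intro hf
          exact ⟨⟨f, hcont f hf⟩, hf, rfl⟩
      rw [this]
      exact hB.isCompact
    · refine fun m => Metric.equicontinuousAt_iff.2 fun ε hε => ?_
      obtain ⟨δ, hδ, hd⟩ := hU ε hε
      exact ⟨δ, hδ, fun m' hm θ => by
        have := hd _ θ.2 m' m hm
        rw [dist_comm]
        exact this⟩
  have hK : IsClosed {p : T r × C(M, X) | ∀ m, π (p.2 m) = p.1} := by
    have : {p : T r × C(M, X) | ∀ m, π (p.2 m) = p.1} =
        ⋂ m, {p : T r × C(M, X) | π (p.2 m) = p.1} := by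
      ext p
      simp
    rw [this]
    exact isClosed_iInter fun m => isClosed_eq
      (hπ.comp ((continuous_eval_const m).comp continuous_snd)) continuous_fst
  have hEq : {p : T r × C(M, X) | p.2 ∈ Emb π ρ M p.1} =
      (univ ×ˢ A) ∩ {p : T r × C(M, X) | ∀ m, π (p.2 m) = p.1} := by
    ext p
    constructor
    · rintro ⟨h1, h2⟩
      exact ⟨⟨mem_univ _, fun m m' => ⟨by rw [h1 m, h1 m'], h2 m m'⟩⟩, h1⟩
    · rintro ⟨⟨-, h2⟩, h1⟩
      exact ⟨h1, fun m m' => (h2 m m').2⟩
  rw [hEq]
  exact (isCompact_univ.prod hA).inter_right hK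

end Pool.Agent.Helper40.IZ
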